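import Pool.Agent.helper94.FJ.SpecP

set_option autoImplicit false

namespace Pool.Agent.FJ

open Finset ArithmeticFunction MeasureTheory
open Pool.Agent.CH (nit DPb)
open Pool.Agent.SK (tr0 Th muz sml bgf zN uu)
open Pool.Agent.helper85.BVP (tau)

private theorem PCO_TL (N : ℕ) (a b : Fin 0 → ℝ) (m : ℕ) :
    Pool.Agent.EC.TL N a b m = vonMangoldt m := by
  classical
  unfold Pool.Agent.EC.TL
  rw [Finset.sum_filter]
  simp

private theorem PCO_z (N : ℕ) (hN : 1 ≤ N) : 64 * N ^ 3 ≤ zN N ^ 7 := by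
  have h1 : (1 : ℝ) ≤ (N : ℝ) ^ (3 / 7 : ℝ) := Real.one_le_rpow (by exact_mod_cast hN) (by norm_num)
  have h2 : 4 * (N : ℝ) ^ (3 / 7 : ℝ) < (zN N : ℝ) + 1 := Nat.lt_floor_add_one _
  have h3 : 3 * (N : ℝ) ^ (3 / 7 : ℝ) ≤ (zN N : ℝ) := by linarith
  have h4 : (3 * (N : ℝ) ^ (3 / 7 : ℝ)) ^ 7 ≤ (zN N : ℝ) ^ 7 := by
    apply pow_le_pow_left₀ (by positivity) h3
  have h5 : ((N : ℝ) ^ (3 / 7 : ℝ)) ^ 7 = (N : ℝ) ^ 3 := by
    rw [← Real.rpow_natCast, ← Real.rpow_mul (Nat.cast_nonneg N), ← Real.rpow_natCast]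
    norm_num
  rw [mul_pow, h5] at h4
  have h6 : (0 : ℝ) ≤ (N : ℝ) ^ 3 := by positivity
  have h7 : (64 : ℝ) * (N : ℝ) ^ 3 ≤ (zN N : ℝ) ^ 7 := by nlinarith
  exact_mod_cast h7

private theorem PCO_tau (d : ℕ) (hd : 1 ≤ d) : 1 ≤ tau d := by
  unfold tau
  have : 1 ≤ #d.divisors := Finset.card_pos.mpr ⟨1, Nat.one_mem_divisors.mpr (by omega)⟩
  exact_mod_cast this

private theorem PCO_E (K : ℕ) : ∃ N₀ : ℕ, ∀ N : ℕ, N₀ ≤ N → ∀ d : ℕ, 1 ≤ d → d ≤ 64 * N ^ 3 → ∀ e : ℝ,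
    |e| ≤ K * (1 + Real.log d) * tau d ^ K → |e| ≤ Real.log N ^ (K + 2) * tau d ^ (K + 2) := by
  have l1 : Filter.Tendsto (fun x : ℕ => Real.log x) Filter.atTop Filter.atTop :=
    Real.tendsto_log_atTop.comp tendsto_natCast_atTop_atTop
  have e1 : ∀ᶠ N : ℕ in Filter.atTop, 1 ≤ N ∧ (8 * K + 8 : ℝ) ≤ Real.log N :=
    (Filter.eventually_ge_atTop 1).and (l1.eventually_ge_atTop _)
  obtain ⟨N₀, hN₀⟩ := Filter.eventually_atTop.1 e1
  refine ⟨N₀, fun N hN d hd1 hd e he => he.trans ?_⟩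
  obtain ⟨f1, f2⟩ := hN₀ N hN
  have hK : (0 : ℝ) ≤ K := Nat.cast_nonneg K
  have hL1 : (1 : ℝ) ≤ Real.log N := by linarith
  have hd' : (1 : ℝ) ≤ d := by exact_mod_cast hd1
  have hlog64 : Real.log 64 ≤ 5 := by
    have h64 : (64 : ℝ) = 2 ^ 6 := by norm_num
    rw [h64, Real.log_pow]
    have := Real.log_two_lt_d9
    push_cast
    linarith
  have hlogd : Real.log d ≤ 5 + 3 * Real.log N := by
    have hN0 : (0 : ℝ) < N := by exact_mod_cast f1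
    have h1 : (d : ℝ) ≤ 64 * (N : ℝ) ^ 3 := by exact_mod_cast hd
    have h2 := Real.log_le_log (by linarith) h1
    rw [Real.log_mul (by norm_num) (by positivity), Real.log_pow] at h2
    push_cast at h2
    linarith
  have hlogd0 : 0 ≤ Real.log d := Real.log_nonneg hd'
  have h3 : (K : ℝ) * (1 + Real.log d) ≤ Real.log N ^ (K + 2) := by
    calc (K : ℝ) * (1 + Real.log d) ≤ K * (6 + 3 * Real.log N) := by
          apply mul_le_mul_of_nonneg_left _ hK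
          linarith
      _ ≤ Real.log N ^ 2 := by nlinarith
      _ ≤ Real.log N ^ (K + 2) := pow_le_pow_right₀ hL1 (by omega)
  have h4 := PCO_tau d hd1
  have h5 : tau d ^ K ≤ tau d ^ (K + 2) := pow_le_pow_right₀ h4 (by omega)
  have h6 : 0 ≤ tau d ^ K := by positivity
  have h7 : 0 ≤ Real.log N ^ (K + 2) := by positivity
  exact mul_le_mul h3 h5 h6 h7

private theorem PCO_meas (δ δ' : ℝ) : Measurable (kbw δ δ') := by
  have h (c : ℝ) : Measurable (bxw c) := by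
    unfold bxw
    exact Measurable.ite (measurableSet_le (by fun_prop) measurable_const) measurable_const
      measurable_const
  unfold kbw
  exact (h δ).sub ((h δ').const_mul _)

private theorem PCO_bd (δ δ' y : ℝ) : |kbw δ δ' y| ≤ 1 + |δ / δ'| := by
  have h (c : ℝ) : |bxw c y| ≤ 1 := by
    unfold bxw
    split_ifs <;> simp
  unfold kbw
  refine (abs_sub _ _).trans (add_le_add (h δ) ?_)
  rw [abs_mul]
  exact mul_le_of_le_one_right (abs_nonneg _) (h δ')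

private theorem PCO_int (δ δ' a b : ℝ) (M : ℕ) (f : ℕ → ℂ) :
    IntervalIntegrable (fun v : ℝ => ‖∑ m ∈ Ioc 0 M,
      f m * ((kbw δ δ' (Real.log m - v) : ℝ) : ℂ)‖ ^ 2) volume a b := by
  have hm : Measurable (fun v : ℝ => ‖∑ m ∈ Ioc 0 M,
      f m * ((kbw δ δ' (Real.log m - v) : ℝ) : ℂ)‖ ^ 2) := by
    refine (Measurable.norm (Finset.measurable_fun_sum _ fun m _ => ?_)).pow_const 2
    refine Measurable.const_mul ?_ _
    exact Complex.measurable_ofReal.comp ((PCO_meas δ δ').comp (measurable_const.sub measurable_id))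
  refine (intervalIntegrable_const (c := (∑ m ∈ Ioc 0 M, ‖f m‖ * (1 + |δ / δ'|)) ^ 2)).mono_fun'
    hm.aestronglyMeasurable (Filter.Eventually.of_forall fun v => ?_)
  simp only [norm_pow, norm_norm]
  refine pow_le_pow_left₀ (norm_nonneg _) ((norm_sum_le _ _).trans
    (Finset.sum_le_sum fun m _ => ?_)) 2
  rw [norm_mul, Complex.norm_real, Real.norm_eq_abs]
  exact mul_le_mul_of_nonneg_left (PCO_bd _ _ _) (norm_nonneg _)

private theorem PCO_sq3 (x y z : ℂ) : ‖x + y + z‖ ^ 2 ≤ 3 * ‖x‖ ^ 2 + 3 * ‖y‖ ^ 2 + 3 * ‖z‖ ^ 2 := by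
  have h : ‖x + y + z‖ ≤ ‖x‖ + ‖y‖ + ‖z‖ :=
    (norm_add_le _ _).trans (add_le_add (norm_add_le _ _) le_rfl)
  have h2 : ‖x + y + z‖ ^ 2 ≤ (‖x‖ + ‖y‖ + ‖z‖) ^ 2 := pow_le_pow_left₀ (norm_nonneg _) h 2
  nlinarith [sq_nonneg (‖x‖ - ‖y‖), sq_nonneg (‖y‖ - ‖z‖), sq_nonneg (‖x‖ - ‖z‖)]

theorem PCO (hPDB : PDB_stmt) (hPDI : PDI_stmt) (hDEC : Pool.Agent.SK.DEC_stmt) : PCO_stmt := by
  intro ε hε hε' A Bq
  obtain ⟨K, hK⟩ := hDEC 0
  obtain ⟨B1, hB1⟩ := hPDB ε hε hε' (A + 1) Bq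
  obtain ⟨B2, hB2⟩ := hPDI ε hε hε' (A + 1) Bq (K + 2)
  refine ⟨max B1 B2, fun B hB => ?_⟩
  obtain ⟨N1, hN1⟩ := hB1 B ((le_max_left _ _).trans hB)
  obtain ⟨N2, hN2⟩ := hB2 B ((le_max_right _ _).trans hB)
  obtain ⟨N3, hN3⟩ := PCO_E K
  have l1 : Filter.Tendsto (fun x : ℕ => Real.log x) Filter.atTop Filter.atTop :=
    Real.tendsto_log_atTop.comp tendsto_natCast_atTop_atTop
  obtain ⟨N4, hN4⟩ := Filter.eventually_atTop.1
    ((Filter.eventually_ge_atTop 1).and (l1.eventually_ge_atTop (200000 : ℝ)))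
  refine ⟨max (max N1 N2) (max N3 N4), fun N hN δ hδ1 hδ2 q hq hqL χ => ?_⟩
  have g1 : N1 ≤ N := (le_max_left _ _).trans ((le_max_left _ _).trans hN)
  have g2 : N2 ≤ N := (le_max_right _ _).trans ((le_max_left _ _).trans hN)
  have g3 : N3 ≤ N := (le_max_left _ _).trans ((le_max_right _ _).trans hN)
  have g4 : N4 ≤ N := (le_max_right _ _).trans ((le_max_right _ _).trans hN)
  obtain ⟨f1, f2⟩ := hN4 N g4
  set a : Fin 0 → ℝ := fun _ => 0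
  obtain ⟨E₀, E₁, hE, hT⟩ := hK N (zN N) (XPc ε N) a a f1 (PCO_z N f1)
  have hE0 := hN2 N g2 δ hδ1 hδ2 q hq hqL χ 0 (by norm_num) E₀
    (fun d hd1 hd => hN3 N g3 d hd1 hd _ (hE d hd1).1)
  have hE1 := hN2 N g2 δ hδ1 hδ2 q hq hqL χ 1 le_rfl E₁
    (fun d hd1 hd => hN3 N g3 d hd1 hd _ (hE d hd1).2)
  have hS := hN1 N g1 δ hδ1 hδ2 q hq hqL χ a a
  set D : ℝ := δ ^ 2 * (N : ℝ) ^ 6 / Real.log N ^ (A + 1) with hDdef
  set δ' : ℝ := 1 / Real.log N ^ B with hδ'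
  have hL0 : (0 : ℝ) < Real.log N := by linarith
  have hD0 : 0 ≤ D := by positivity
  set S : ℕ → ℝ → ℂ := fun i v => ∑ m ∈ Ioc 0 (64 * N ^ 3),
    (((∏ k, uu N (zN N) (XPc ε N) a a i k) m : ℝ) : ℂ) * χ m *
      ((kbw δ δ' (Real.log m - v) : ℝ) : ℂ) with hSdef
  set T0 : ℝ → ℂ := fun v => ∑ m ∈ Ioc 0 (64 * N ^ 3),
    (((E₀ * bgf (XPc ε N) 0) m : ℝ) : ℂ) * χ m * ((kbw δ δ' (Real.log m - v) : ℝ) : ℂ) with hT0def
  set T1 : ℝ → ℂ := fun v => ∑ m ∈ Ioc 0 (64 * N ^ 3),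
    (((E₁ * bgf (XPc ε N) 1) m : ℝ) : ℂ) * χ m * ((kbw δ δ' (Real.log m - v) : ℝ) : ℂ) with hT1def
  have hsum (v : ℝ) : ∑ m ∈ Ioc 0 (64 * N ^ 3),
      (vonMangoldt m : ℂ) * χ m * ((kbw δ δ' (Real.log m - v) : ℝ) : ℂ) =
      (∑ i ∈ Icc 1 7, (((-1 : ℝ) ^ (i + 1) * (Nat.choose 7 i : ℝ) : ℝ) : ℂ) * S i v) +
      T0 v + T1 v := by
    simp only [hSdef, hT0def, hT1def]
    simp_rw [Finset.mul_sum]
    rw [Finset.sum_comm, ← Finset.sum_add_distrib, ← Finset.sum_add_distrib]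
    refine Finset.sum_congr rfl fun m hm => ?_
    rw [Finset.mem_Ioc] at hm
    have h := hT m (by omega) hm.2
    rw [PCO_TL] at h
    rw [h]
    push_cast
    rw [add_mul, add_mul, add_mul, add_mul, Finset.sum_mul, Finset.sum_mul]
    congr 2
    refine Finset.sum_congr rfl fun i _ => ?_
    ring
  have hIS (i : ℕ) : IntervalIntegrable (fun v => ‖S i v‖ ^ 2) volume
      (3 * Real.log N - 1) (3 * Real.log N + 1) := PCO_int δ δ' _ _ _ _
  have hIT0 : IntervalIntegrable (fun v => ‖T0 v‖ ^ 2) volume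
      (3 * Real.log N - 1) (3 * Real.log N + 1) := PCO_int δ δ' _ _ _ _
  have hIT1 : IntervalIntegrable (fun v => ‖T1 v‖ ^ 2) volume
      (3 * Real.log N - 1) (3 * Real.log N + 1) := PCO_int δ δ' _ _ _ _
  have hIΛ : IntervalIntegrable (fun v : ℝ => ‖∑ m ∈ Ioc 0 (64 * N ^ 3),
      (vonMangoldt m : ℂ) * χ m * ((kbw δ δ' (Real.log m - v) : ℝ) : ℂ)‖ ^ 2) volume
      (3 * Real.log N - 1) (3 * Real.log N + 1) := PCO_int δ δ' _ _ _ _
  have hpt (v : ℝ) : ‖∑ m ∈ Ioc 0 (64 * N ^ 3),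
      (vonMangoldt m : ℂ) * χ m * ((kbw δ δ' (Real.log m - v) : ℝ) : ℂ)‖ ^ 2 ≤
      25725 * ∑ i ∈ Icc 1 7, ‖S i v‖ ^ 2 + 3 * ‖T0 v‖ ^ 2 + 3 * ‖T1 v‖ ^ 2 := by
    rw [hsum]
    refine (PCO_sq3 _ _ _).trans ?_
    have h1 : ‖∑ i ∈ Icc 1 7, (((-1 : ℝ) ^ (i + 1) * (Nat.choose 7 i : ℝ) : ℝ) : ℂ) * S i v‖ ≤
        ∑ i ∈ Icc 1 7, 35 * ‖S i v‖ := by
      refine (norm_sum_le _ _).trans (Finset.sum_le_sum fun i hi => ?_)
      rw [norm_mul, Complex.norm_real, norm_mul, norm_pow, norm_neg, norm_one, one_pow, one_mul,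
        Real.norm_natCast]
      refine mul_le_mul_of_nonneg_right ?_ (norm_nonneg _)
      have h35 : ∀ i ∈ Icc 1 7, Nat.choose 7 i ≤ 35 := by decide
      exact_mod_cast h35 i hi
    have h2 : ‖∑ i ∈ Icc 1 7, (((-1 : ℝ) ^ (i + 1) * (Nat.choose 7 i : ℝ) : ℝ) : ℂ) * S i v‖ ^ 2 ≤
        8575 * ∑ i ∈ Icc 1 7, ‖S i v‖ ^ 2 := by
      refine (pow_le_pow_left₀ (norm_nonneg _) h1 2).trans ?_
      refine (sq_sum_le_card_mul_sum_sq).trans ?_
      rw [Nat.card_Icc, Finset.mul_sum, Finset.mul_sum]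
      refine Finset.sum_le_sum fun i _ => le_of_eq ?_
      push_cast
      ring
    linarith
  have hle : (3 * Real.log N - 1 : ℝ) ≤ 3 * Real.log N + 1 := by linarith
  have hsumI : IntervalIntegrable (fun v => ∑ i ∈ Icc 1 7, ‖S i v‖ ^ 2) volume
      (3 * Real.log N - 1) (3 * Real.log N + 1) := by
    have h := IntervalIntegrable.sum (Icc 1 7) fun i _ => hIS i
    have h2 : (∑ i ∈ Icc 1 7, fun v => ‖S i v‖ ^ 2) = fun v => ∑ i ∈ Icc 1 7, ‖S i v‖ ^ 2 := by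
      ext v
      rw [Finset.sum_apply]
    rwa [h2] at h
  have hI1 := ((hsumI.const_mul 25725).add (hIT0.const_mul 3)).add (hIT1.const_mul 3)
  refine (intervalIntegral.integral_mono_on hle hIΛ hI1 fun v _ => hpt v).trans ?_
  rw [intervalIntegral.integral_add ((hsumI.const_mul 25725).add (hIT0.const_mul 3))
    (hIT1.const_mul 3), intervalIntegral.integral_add (hsumI.const_mul 25725)
    (hIT0.const_mul 3), intervalIntegral.integral_const_mul, intervalIntegral.integral_const_mul,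
    intervalIntegral.integral_const_mul, intervalIntegral.integral_finsetSum fun i _ => hIS i]
  have h3 : ∑ i ∈ Icc 1 7, ∫ v in (3 * Real.log N - 1)..(3 * Real.log N + 1), ‖S i v‖ ^ 2 ≤
      7 * D := by
    refine (Finset.sum_le_sum fun i hi => hS i hi).trans (le_of_eq ?_)
    rw [Finset.sum_const, Nat.card_Icc, nsmul_eq_mul]
    norm_num
  have e1 : δ ^ 2 * (N : ℝ) ^ 6 / Real.log N ^ A = Real.log N * D := by
    rw [hDdef]
    field_simp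
    ring
  rw [e1]
  nlinarith

end Pool.Agent.FJ
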